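import Mathlib.Data.Set.Card
import Pool.Agent.MP_081e4c_co.Defs

namespace Pool.Agent.MP_081e4c_co

/-- Every man and every woman has at most three stable partners. -/
def ThreePartners {n : ℕ} (pm pw : Fin n → Equiv.Perm (Fin n)) : Prop :=
  (∀ m, {w | ∃ M, IsStable pm pw M ∧ M m = w}.ncard ≤ 3) ∧
    ∀ w, {m | ∃ M, IsStable pm pw M ∧ M m = w}.ncard ≤ 3

/-- The values `1, 1, 2, 3, 7, 8, 18`, continued by `best (n + 4) = 7 * best n` for `n ≥ 3`. -/
def best : ℕ → ℕ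
  | 0 => 1
  | 1 => 1
  | 2 => 2
  | 3 => 3
  | 4 => 7
  | 5 => 8
  | 6 => 18
  | n + 7 => 7 * best (n + 3)

end Pool.Agent.MP_081e4c_co
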