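import Pool.Agent.MP_081e4c_co.T3.Red
import Pool.Agent.MP_081e4c_co.OC.Lat

/-! The upper bound for instances with at most three stable partners. -/

open Finset

namespace Pool.Agent.MP_081e4c_co.T3

open OC

noncomputable section

open Classical

variable {n : ℕ} {pm pw : Fin n → Equiv.Perm (Fin n)}

theorem four {T : Set (Fin n)} (hT : T.ncard ≤ 3) {a b c d : Fin n} (ha : a ∈ T) (hb : b ∈ T)
    (hc : c ∈ T) (hd : d ∈ T) (ab : a ≠ b) (ac : a ≠ c) (ad : a ≠ d) (bc : b ≠ c) (bd : b ≠ d)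
    (cd : c ≠ d) : False := by
  have h := (Set.three_lt_ncard_iff (Set.toFinite T)).2 ⟨a, b, c, d, ha, hb, hc, hd, ab, ac, ad, bc,
    bd, cd⟩
  omega

theorem no_three {P : Type*} [PartialOrder P] {lo hi : P → Equiv.Perm (Fin n)} (H : Side lo hi)
    {m : Fin n} {T : Set (Fin n)} (hT : T.ncard ≤ 3) (h1 : ∀ r, lo r m ∈ T) (h2 : ∀ r, hi r m ∈ T)
    {r s t : P} (rs : r < s) (st : s < t) (hr : m ∈ men lo hi r) (hs : m ∈ men lo hi s)
    (ht : m ∈ men lo hi t) : False :=
  four hT (h1 r) (h2 r) (h2 s) (h2 t) (mem_men.1 hr) (H.new r s m rs hr hs).2.symm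
    (H.new r t m (rs.trans st) hr ht).2.symm (H.new r s m rs hr hs).1.symm
    (H.new r t m (rs.trans st) hr ht).1.symm (H.new s t m st hs ht).1.symm

theorem three_men (H : ThreePartners pm pw) {m : Fin n} {r s t : Irr pm pw} (rs : r < s)
    (st : s < t) (hr : m ∈ men lo hi r) (hs : m ∈ men lo hi s) (ht : m ∈ men lo hi t) : False :=
  no_three sideM (H.1 m) (fun r => ⟨_, (low r).2, rfl⟩) (fun r => ⟨_, r.1.2, rfl⟩) rs st hr hs ht

theorem three_women (H : ThreePartners pm pw) {w : Fin n} {r s t : Irr pm pw} (rs : r < s)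
    (st : s < t) (hr : w ∈ men (inv lo) (inv hi) r) (hs : w ∈ men (inv lo) (inv hi) s)
    (ht : w ∈ men (inv lo) (inv hi) t) : False :=
  no_three sideW (H.2 w) (fun r => ⟨_, (low r).2, (lo r).apply_symm_apply w⟩)
    (fun r => ⟨_, r.1.2, (hi r).apply_symm_apply w⟩) rs st hr hs ht

theorem lo_lt {r : Irr pm pw} {m : Fin n} (h : m ∈ men lo hi r) :
    pm m (lo r m) < pm m (hi r m) :=
  lt_of_le_of_ne ((low_lt r).le m) fun e => mem_men.1 h ((pm m).injective e)

theorem link (H : ThreePartners pm pw) {m : Fin n} {r s : Irr pm pw} (rs : r < s)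
    (hr : m ∈ men lo hi r) (hs : m ∈ men lo hi s) : lo s m = hi r m := by
  by_contra hne
  have a1 := lo_lt hr
  have a2 : pm m (hi r m) < pm m (lo s m) :=
    lt_of_le_of_ne (le_low s rs m) fun e => hne ((pm m).injective e).symm
  have a3 := lo_lt hs
  have f : ∀ {a b : Fin n}, pm m a < pm m b → a ≠ b := fun h e => h.ne (congrArg _ e)
  exact four (H.1 m) ⟨_, (low r).2, rfl⟩ ⟨_, r.1.2, rfl⟩ ⟨_, (low s).2, rfl⟩ ⟨_, s.1.2, rfl⟩ (f a1)
    (f (a1.trans a2)) (f ((a1.trans a2).trans a3)) (f a2) (f (a2.trans a3)) (f a3)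

/-- an irreducible element differs from its lower cover by a single cycle -/
theorem cyc (r : Irr pm pw) {D : Finset (Fin n)} (hD : D ⊆ men lo hi r) (hne : D.Nonempty)
    (hinv : ∀ m ∈ D, (lo r).symm (hi r m) ∈ D) : men lo hi r ⊆ D := by
  let Q : Fin n → Fin n → Prop := fun m w =>
    pm m (lo r m) < pm m w ∧ pw w m < pw w ((lo r).symm w)
  have hQ : ∀ m ∈ men lo hi r, Q m (hi r m) := by
    intro m hm
    have a1 : pw (hi r m) ((hi r).symm (hi r m)) ≤ pw (hi r m) ((lo r).symm (hi r m)) :=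
      opp' (low_lt r).le _
    rw [Equiv.symm_apply_apply] at a1
    exact ⟨lo_lt hm, lt_of_le_of_ne a1 fun e =>
      mem_men.1 hm ((Equiv.eq_symm_apply _).1 ((pw _).injective e))⟩
  have ex : ∀ m, ∃ w, m ∈ men lo hi r → Q m w ∧ ∀ x, Q m x → pm m w ≤ pm m x := by
    intro m
    by_cases hm : m ∈ men lo hi r
    · obtain ⟨w, h1, h2⟩ := exists_min_image (univ.filter (Q m)) (pm m)
        ⟨_, mem_filter.2 ⟨mem_univ _, hQ m hm⟩⟩
      exact ⟨w, fun _ => ⟨(mem_filter.1 h1).2, fun x hx => h2 x (mem_filter.2 ⟨mem_univ _, hx⟩)⟩⟩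
    · exact ⟨m, fun h => absurd h hm⟩
  choose nx hnx using ex
  have core : ∀ D ⊆ men lo hi r, D.Nonempty → (∀ m ∈ D, (lo r).symm (nx m) ∈ D) →
      ∀ m ∈ men lo hi r, m ∈ D ∧ nx m = hi r m := by
    intro D hD hne hinv
    obtain ⟨C, hC, hmin⟩ := exists_min_image (D.powerset.filter fun C =>
      C.Nonempty ∧ ∀ m ∈ C, (lo r).symm (nx m) ∈ C) card
        ⟨D, mem_filter.2 ⟨mem_powerset_self _, hne, hinv⟩⟩
    obtain ⟨c1, c2, c3⟩ := mem_filter.1 hC
    rw [mem_powerset] at c1
    have c4 : C.image (fun m => (lo r).symm (nx m)) ⊆ C := image_subset_iff.2 c3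
    have c5 : Set.InjOn (fun m => (lo r).symm (nx m)) C := by
      refine card_image_iff.1 (le_antisymm card_image_le (hmin _ (mem_filter.2
        ⟨mem_powerset.2 (c4.trans c1), c2.image _, fun m hm => mem_image_of_mem _ (c4 hm)⟩)))
    let f : Fin n → Fin n := fun m => if m ∈ C then nx m else lo r m
    have f1 : ∀ m ∈ C, f m = nx m := fun m h => if_pos h
    have f2 : ∀ m ∉ C, f m = lo r m := fun m h => if_neg h
    have hinj : Function.Injective f := by
      intro a b e
      by_cases ha : a ∈ C <;> by_cases hb : b ∈ C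
      · rw [f1 a ha, f1 b hb] at e
        exact c5 ha hb (congrArg (lo r).symm e)
      · rw [f1 a ha, f2 b hb] at e
        have := c3 a ha
        rw [e, Equiv.symm_apply_apply] at this
        exact absurd this hb
      · rw [f2 a ha, f1 b hb] at e
        have := c3 b hb
        rw [← e, Equiv.symm_apply_apply] at this
        exact absurd this ha
      · rw [f2 a ha, f2 b hb] at e
        exact (lo r).injective e
    have hst : IsStable pm pw (Equiv.ofBijective f (Finite.injective_iff_bijective.1 hinj)) := by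
      rintro ⟨m, w, -, h2, h3⟩
      set x := (Equiv.ofBijective f (Finite.injective_iff_bijective.1 hinj)).symm w with hx
      have e : f x = w := (Equiv.ofBijective f _).apply_symm_apply w
      have h2' : pm m w < pm m (f m) := h2
      have h4 : pw w x ≤ pw w ((lo r).symm w) := by
        by_cases hx' : x ∈ C
        · rw [f1 x hx'] at e
          exact e ▸ (hnx x (hD (c1 hx'))).1.2.le
        · rw [f2 x hx'] at e
          rw [← e, Equiv.symm_apply_apply]
      have h5 := h3.trans_le h4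
      have h6 : pm m (lo r m) < pm m w := by
        refine lt_of_le_of_ne (not_lt.1 fun h => lt_asymm h5 (st_lt (low r).2 h)) fun h => ?_
        rw [← (pm m).injective h, Equiv.symm_apply_apply] at h5
        exact lt_irrefl _ h5
      by_cases hm : m ∈ C
      · rw [f1 m hm] at h2'
        exact not_lt.2 ((hnx m (hD (c1 hm))).2 w ⟨h6, h5⟩) h2'
      · rw [f2 m hm] at h2'
        exact lt_asymm h6 h2'
    let N : St pm pw := ⟨_, hst⟩
    have hle : N ≤ r.1 := by
      intro m
      change pm m (f m) ≤ pm m (hi r m)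
      by_cases hm : m ∈ C
      · rw [f1 m hm]
        exact (hnx m (hD (c1 hm))).2 _ (hQ m (hD (c1 hm)))
      · rw [f2 m hm]
        exact (low_lt r).le m
    rcases hle.eq_or_lt with e | e
    · intro m hm
      have e1 : f m = hi r m := congrArg (fun M : St pm pw => M.1 m) e
      have e2 : m ∈ C := by_contra fun h => mem_men.1 hm ((f2 m h).symm.trans e1)
      exact ⟨c1 e2, (f1 m e2).symm.trans e1⟩
    · obtain ⟨m, hm⟩ := c2
      have e1 : pm m (f m) ≤ pm m (lo r m) := le_low r e m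
      rw [f1 m hm] at e1
      exact absurd (hnx m (hD (c1 hm))).1.1 (not_lt.2 e1)
  have all := core _ Subset.rfl (hne.mono hD) fun m hm => by
    have a1 : pw (nx m) ((hi r).symm (nx m)) ≤ pw (nx m) m := by
      rcases ((hnx m hm).2 _ (hQ m hm)).eq_or_lt with e | e
      · rw [(pm m).injective e, Equiv.symm_apply_apply]
      · exact (st_lt r.1.2 e).le
    refine mem_men.2 fun e => (a1.trans_lt (hnx m hm).1.2).ne (congrArg _ ?_)
    rw [Equiv.apply_symm_apply] at e
    exact (Equiv.symm_apply_eq _).2 e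
  exact fun m hm => (core D hD hne (fun x hx => (all x (hD hx)).2 ▸ hinv x hx) m hm).1

theorem next_mem {r : Irr pm pw} {m : Fin n} (h : m ∈ men lo hi r) :
    (lo r).symm (hi r m) ∈ men lo hi r ∧ (lo r).symm (hi r m) ≠ m := by
  have h1 : (lo r).symm (hi r m) ≠ m := fun e => mem_men.1 h ((Equiv.symm_apply_eq _).1 e).symm
  refine ⟨mem_men.2 fun e => h1 ?_, h1⟩
  rw [Equiv.apply_symm_apply] at e
  exact ((hi r).injective e).symm

/-- one edge for each man who is moved twice -/
def edges (pm pw : Fin n → Equiv.Perm (Fin n)) : Finset (Irr pm pw × Irr pm pw × Fin n) :=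
  univ.filter fun e => e.1 < e.2.1 ∧ e.2.2 ∈ men lo hi e.1 ∧ e.2.2 ∈ men lo hi e.2.1

theorem mem_edges {e : Irr pm pw × Irr pm pw × Fin n} : e ∈ edges pm pw ↔
    e.1 < e.2.1 ∧ e.2.2 ∈ men lo hi e.1 ∧ e.2.2 ∈ men lo hi e.2.1 := by
  simp only [edges, mem_filter, mem_univ, true_and]

theorem edges_inj (H : ThreePartners pm pw) :
    Set.InjOn (fun e : Irr pm pw × Irr pm pw × Fin n => e.2.2) (edges pm pw) := by
  rintro ⟨r, s, m⟩ he ⟨r', s', m'⟩ hf (rfl : m = m')
  obtain ⟨a1, a2, a3⟩ := mem_edges.1 (mem_coe.1 he)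
  obtain ⟨b1, b2, b3⟩ := mem_edges.1 (mem_coe.1 hf)
  have e1 : r = r' := by
    by_contra hne
    rcases sideM.chain r r' m a2 b2 with h | h
    · exact three_men H (lt_of_le_of_ne h hne) b1 a2 b2 b3
    · exact three_men H (lt_of_le_of_ne h (Ne.symm hne)) a1 b2 a2 a3
  have e2 : s = s' := by
    by_contra hne
    rcases sideM.chain s s' m a3 b3 with h | h
    · exact three_men H a1 (lt_of_le_of_ne h hne) a2 a3 b3
    · exact three_men H b1 (lt_of_le_of_ne h (Ne.symm hne)) b2 b3 a3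
  rw [e1, e2]

theorem good (H : ThreePartners pm pw) :
    Good (fun e => e.1) (fun e => e.2.1) univ (edges pm pw) fun r => (men lo hi r).card := by
  have hc : ∀ r, (inc (fun e => e.1) (fun e => e.2.1) (edges pm pw) r).card =
      ((inc (fun e => e.1) (fun e => e.2.1) (edges pm pw) r).image fun e => e.2.2).card :=
    fun r => (card_image_of_injOn ((edges_inj H).mono (coe_subset.2 (filter_subset _ _)))).symm
  have hs : ∀ r, ((inc (fun e => e.1) (fun e => e.2.1) (edges pm pw) r).image fun e => e.2.2) ⊆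
      men lo hi r := fun r => image_subset_iff.2 fun e he => by
    obtain ⟨h1, h2 | h2⟩ := mem_inc.1 he
    · exact h2 ▸ (mem_edges.1 h1).2.1
    · exact h2 ▸ (mem_edges.1 h1).2.2
  refine ⟨fun e he => ⟨mem_univ _, mem_univ _, (mem_edges.1 he).1.ne⟩,
    fun r _ => two_le (sideM.ne r), fun r _ => (hc r).trans_le (card_le_card (hs r)), ?_, ?_⟩
  · rintro ⟨t, r, m⟩ he ⟨r', s, x⟩ hf (rfl : r = r')
    obtain ⟨a1, a2, a3⟩ := mem_edges.1 he
    obtain ⟨b1, b2, b3⟩ := mem_edges.1 hf
    refine (hc r).trans_lt (card_lt_card ⟨hs r, fun h => ?_⟩)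
    have h1 := cyc r (D := (men lo hi r).filter fun y => ∃ u, r < u ∧ y ∈ men lo hi u)
      (filter_subset _ _) ⟨x, mem_filter.2 ⟨b2, s, b1, b3⟩⟩ fun y hy => by
        obtain ⟨y1, u, y2, y3⟩ := mem_filter.1 hy
        have z1 := (next_mem y1).1
        obtain ⟨g, g1, g2⟩ := mem_image.1 (h z1)
        obtain ⟨g3, g4⟩ := mem_inc.1 g1
        obtain ⟨g5, g6, g7⟩ := mem_edges.1 g3
        rw [g2] at g6 g7
        rcases g4 with g4 | g4
        · exact mem_filter.2 ⟨z1, _, g4 ▸ g5, g7⟩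
        · have g8 : g.1 < r := g4 ▸ g5
          have g9 := link H g8 g6 z1
          rw [Equiv.apply_symm_apply] at g9
          exact (three_women H g8 y2 (g9 ▸ hi_mem g6) (hi_mem y1)
            (link H y2 y1 y3 ▸ lo_mem y3)).elim
    obtain ⟨-, u, u1, u2⟩ := mem_filter.1 (h1 a3)
    exact three_men H a1 u1 a2 a3 u2
  · rintro ⟨r, s, m⟩ he ⟨r', s', x⟩ hf hne (rfl : r = r') (rfl : s = s')
    obtain ⟨a1, a2, a3⟩ := mem_edges.1 he
    obtain ⟨-, b2, b3⟩ := mem_edges.1 hf
    have hmx : m ≠ x := fun e => hne (by rw [e])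
    have pair : ∀ (u : Irr pm pw) (y z : Fin n), (men lo hi u).card < 3 → y ≠ z →
        y ∈ men lo hi u → z ∈ men lo hi u → hi u y = lo u z := by
      intro u y z h1 h2 h3 h4
      by_contra h5
      have h6 := two_lt_card_iff.2 ⟨y, z, _, h3, h4, (next_mem h3).1, h2, (next_mem h3).2.symm,
        fun e => h5 ((Equiv.symm_apply_eq _).1 e.symm)⟩
      omega
    by_contra hc'
    rw [not_or, not_le, not_le] at hc'
    refine (sideM.new r s m a1 a2 a3).2 ?_
    rw [pair s m x hc'.2 hmx a3 b3, link H a1 b2 b3, pair r x m hc'.1 hmx.symm b2 a2]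

theorem count : ∑ r : Irr pm pw, (men lo hi r).card ≤ n + (edges pm pw).card := by
  rw [← card_sigma, ← card_filter_add_card_filter_not
    (fun x : (_ : Irr pm pw) × Fin n => ¬ ∃ t, t < x.1 ∧ x.2 ∈ men lo hi t)]
  refine add_le_add ?_ ?_
  · refine (card_le_card_of_injOn (t := univ) (fun x => x.2) (fun _ _ => mem_univ _) ?_).trans
      (by rw [card_univ, Fintype.card_fin])
    rintro ⟨r, m⟩ h1 ⟨s, x⟩ h2 (rfl : m = x)
    obtain ⟨a1, a2⟩ := mem_filter.1 (mem_coe.1 h1)
    obtain ⟨b1, b2⟩ := mem_filter.1 (mem_coe.1 h2)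
    have a3 := (mem_sigma.1 a1).2
    have b3 := (mem_sigma.1 b1).2
    have e : r = s := by
      by_contra hne
      rcases sideM.chain r s m a3 b3 with h | h
      · exact b2 ⟨r, lt_of_le_of_ne h hne, a3⟩
      · exact a2 ⟨s, lt_of_le_of_ne h (Ne.symm hne), b3⟩
    rw [e]
  · refine le_trans (card_le_card (t := (edges pm pw).image fun e => ⟨e.2.1, e.2.2⟩)
      fun x hx => ?_) card_image_le
    obtain ⟨a1, a2⟩ := mem_filter.1 hx
    obtain ⟨t, a3, a4⟩ := not_not.1 a2
    exact mem_image.2 ⟨(t, x.1, x.2), mem_edges.2 ⟨a3, a4, (mem_sigma.1 a1).2⟩, rfl⟩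

theorem upper (H : ThreePartners pm pw) :
    Nat.card {M : Equiv.Perm (Fin n) // IsStable pm pw M} ≤ best n := by
  refine (card_le_ac (pm := pm) (pw := pw)).trans
    (le_trans (card_le_card fun A hA => ?_) (reduce _ _ _ (good H) rfl n count))
  refine mem_filter.2 ⟨mem_powerset.2 (subset_univ _), fun a ha b hb ⟨e, he, h⟩ => ?_⟩
  have h1 := (mem_edges.1 he).1
  have h2 := (mem_filter.1 hA).2
  rcases h with ⟨rfl, rfl⟩ | ⟨rfl, rfl⟩
  · exact h1.ne (h2 _ ha _ hb h1.le)
  · exact h1.ne (h2 _ hb _ ha h1.le)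

end

end Pool.Agent.MP_081e4c_co.T3
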