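import Mathlib.Data.Fin.Tuple.Sort
import Mathlib.Data.Fin.VecNotation
import Mathlib.Data.Fintype.Perm
import Mathlib.Order.Interval.Set.Nat
import Mathlib.Logic.Equiv.Fin.Basic
import Mathlib.SetTheory.Cardinal.Finite
import Pool.Agent.MP_081e4c_co.T3.Up

/-! Instances with at most three stable partners and many stable matchings. -/

open Function

namespace Pool.Agent.MP_081e4c_co.T3

/-- rank functions with `c` stable matchings and short stable lists -/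
def Inst (ι : Type) (c : ℕ) : Prop :=
  ∃ (rm rw : ι → ι → ℕ) (s : Fin c → ι → ι) (A B : ι → ι),
    (∀ m, Injective (rm m)) ∧ (∀ w, Injective (rw w)) ∧ Injective s ∧ (∀ i, Injective (s i)) ∧
    (∀ i m x, ¬ (rm m (s i x) < rm m (s i m) ∧ rw (s i x) m < rw (s i x) x)) ∧
    (∀ w, rm (A w) w = 0 ∧ rw w (A w) ≤ 2) ∧ ∀ m, rw (B m) m = 0 ∧ rm m (B m) ≤ 2

theorem inst0 : Inst (Fin 0) 1 :=
  ⟨fun _ _ => 0, fun _ _ => 0, fun _ => id, id, id, by decide⟩

theorem inst1 : Inst (Fin 1) 1 :=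
  ⟨![![0]],
    ![![0]],
    ![![0]],
    ![0], ![0], by decide +kernel⟩

theorem inst2 : Inst (Fin 2) 2 :=
  ⟨![![0, 1], ![1, 0]],
    ![![1, 0], ![0, 1]],
    ![![0, 1], ![1, 0]],
    ![0, 1], ![1, 0], by decide +kernel⟩

theorem inst3 : Inst (Fin 3) 3 :=
  ⟨![![0, 1, 2], ![2, 0, 1], ![1, 2, 0]],
    ![![2, 0, 1], ![1, 2, 0], ![0, 1, 2]],
    ![![0, 1, 2], ![1, 2, 0], ![2, 0, 1]],
    ![0, 1, 2], ![2, 0, 1], by decide +kernel⟩

theorem inst4 : Inst (Fin 4) 7 :=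
  ⟨![![0, 1, 2, 3], ![1, 0, 3, 2], ![2, 3, 0, 1], ![3, 2, 1, 0]],
    ![![2, 1, 0, 3], ![1, 2, 3, 0], ![0, 3, 2, 1], ![3, 0, 1, 2]],
    ![![0, 1, 2, 3], ![0, 1, 3, 2], ![1, 0, 2, 3], ![1, 0, 3, 2], ![1, 3, 0, 2], ![2, 0, 3, 1],
    ![2, 3, 0, 1]],
    ![0, 1, 2, 3], ![2, 3, 0, 1], by decide +kernel⟩

theorem inst5 : Inst (Fin 5) 8 :=
  ⟨![![0, 1, 2, 3, 4], ![1, 0, 3, 2, 4], ![2, 3, 0, 1, 4], ![3, 4, 1, 0, 2], ![2, 3, 1, 4, 0]],
    ![![2, 1, 0, 3, 4], ![0, 1, 2, 3, 4], ![3, 4, 2, 1, 0], ![3, 0, 1, 2, 4], ![2, 3, 4, 0, 1]],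
    ![![0, 1, 2, 3, 4], ![0, 1, 3, 2, 4], ![0, 1, 3, 4, 2], ![1, 0, 2, 3, 4], ![1, 0, 3, 2, 4],
    ![1, 0, 3, 4, 2], ![1, 3, 0, 2, 4], ![1, 3, 0, 4, 2]],
    ![0, 1, 2, 3, 4], ![1, 3, 0, 4, 2], by decide +kernel⟩

theorem inst6 : Inst (Fin 6) 18 :=
  ⟨![![0, 1, 3, 4, 2, 5], ![1, 0, 3, 2, 4, 5], ![2, 3, 0, 1, 4, 5], ![3, 4, 1, 0, 5, 2],
    ![3, 4, 2, 5, 0, 1], ![3, 2, 4, 5, 1, 0]],
    ![![2, 1, 0, 3, 4, 5], ![1, 2, 3, 4, 5, 0], ![3, 4, 2, 1, 0, 5], ![3, 0, 1, 2, 4, 5],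
    ![0, 3, 4, 5, 2, 1], ![3, 4, 5, 0, 1, 2]],
    ![![0, 1, 2, 3, 4, 5], ![0, 1, 2, 3, 5, 4], ![0, 1, 3, 2, 4, 5], ![0, 1, 3, 2, 5, 4],
    ![0, 1, 3, 5, 2, 4], ![1, 0, 2, 3, 4, 5], ![1, 0, 2, 3, 5, 4], ![1, 0, 3, 2, 4, 5],
    ![1, 0, 3, 2, 5, 4], ![1, 0, 3, 5, 2, 4], ![1, 3, 0, 2, 4, 5], ![1, 3, 0, 2, 5, 4],
    ![1, 3, 0, 5, 2, 4], ![4, 0, 2, 3, 5, 1], ![4, 0, 3, 2, 5, 1], ![4, 0, 3, 5, 2, 1],
    ![4, 3, 0, 2, 5, 1], ![4, 3, 0, 5, 2, 1]],
    ![0, 1, 2, 3, 4, 5], ![4, 3, 0, 5, 2, 1], by decide +kernel⟩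

theorem Inst.map {ι κ : Type} {c : ℕ} (e : κ ≃ ι) (h : Inst ι c) : Inst κ c := by
  obtain ⟨rm, rw, s, A, B, h1, h2, h3, h4, h5, h6, h7⟩ := h
  refine ⟨fun m w => rm (e m) (e w), fun w m => rw (e w) (e m), fun i m => e.symm (s i (e m)),
    fun w => e.symm (A (e w)), fun m => e.symm (B (e m)), fun m => (h1 _).comp e.injective,
    fun m => (h2 _).comp e.injective, fun i j h => h3 (funext fun x => ?_),
    fun i => e.symm.injective.comp ((h4 i).comp e.injective), fun i m x => ?_, fun w => ?_,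
    fun m => ?_⟩
  · simpa using congrFun h (e.symm x)
  · simpa only [Equiv.apply_symm_apply] using h5 i (e m) (e x)
  · simpa only [Equiv.apply_symm_apply] using h6 (e w)
  · simpa only [Equiv.apply_symm_apply] using h7 (e m)

/-- outsiders are ranked last -/
def join {a b : ℕ} (K : ℕ) (r : Fin a → Fin a → ℕ) (t : Fin b → Fin b → ℕ) :
    Fin a ⊕ Fin b → Fin a ⊕ Fin b → ℕ
  | .inl m, .inl w => r m w
  | .inl _, .inr w => K + w
  | .inr _, .inl w => K + w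
  | .inr m, .inr w => t m w

theorem join_inj {a b K : ℕ} {r : Fin a → Fin a → ℕ} {t : Fin b → Fin b → ℕ}
    (h1 : ∀ m, Injective (r m)) (h2 : ∀ m, Injective (t m)) (h3 : ∀ m w, r m w < K)
    (h4 : ∀ m w, t m w < K) (m : Fin a ⊕ Fin b) : Injective (join K r t m) := by
  rcases m with m | m <;> rintro (x | x) (y | y) h <;> simp only [join] at h
  · rw [h1 m h]
  · have := h3 m x; omega
  · have := h3 m y; omega
  · rw [Fin.ext (Nat.add_left_cancel h)]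
  · rw [Fin.ext (Nat.add_left_cancel h)]
  · have := h4 m y; omega
  · have := h4 m x; omega
  · rw [h2 m h]

theorem bound {a : ℕ} (r : Fin a → Fin a → ℕ) : ∃ K, ∀ m w, r m w < K :=
  ⟨Finset.univ.sup (fun x : Fin a × Fin a => r x.1 x.2) + 1, fun m w => Nat.lt_succ_of_le
    (Finset.le_sup (f := fun x : Fin a × Fin a => r x.1 x.2) (Finset.mem_univ (m, w)))⟩

theorem Inst.add {a b c d : ℕ} (h : Inst (Fin a) c) (h' : Inst (Fin b) d) :
    Inst (Fin (a + b)) (c * d) := by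
  obtain ⟨rm, rw, s, A, B, h1, h2, h3, h4, h5, h6, h7⟩ := h
  obtain ⟨tm, tw, u, C, D, g1, g2, g3, g4, g5, g6, g7⟩ := h'
  obtain ⟨K1, k1⟩ := bound rm
  obtain ⟨K2, k2⟩ := bound rw
  obtain ⟨K3, k3⟩ := bound tm
  obtain ⟨K4, k4⟩ := bound tw
  refine Inst.map finSumFinEquiv.symm ⟨join (K1 + K3) rm tm, join (K2 + K4) rw tw,
    fun i => Sum.map (s (finProdFinEquiv.symm i).1) (u (finProdFinEquiv.symm i).2), Sum.map A C,
    Sum.map B D,
    join_inj h1 g1 (fun m w => by have := k1 m w; omega) fun m w => by have := k3 m w; omega,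
    join_inj h2 g2 (fun m w => by have := k2 m w; omega) fun m w => by have := k4 m w; omega,
    fun i j h => finProdFinEquiv.symm.injective (Prod.ext
      (h3 (funext fun x => Sum.inl_injective (congrFun h (.inl x))))
      (g3 (funext fun x => Sum.inr_injective (congrFun h (.inr x))))),
    fun i => (h4 _).sumMap (g4 _), ?_, ?_, ?_⟩
  · rintro i (m | m) (x | x) <;> simp only [Sum.map_inl, Sum.map_inr, join]
    · exact h5 _ m x
    · have := k1 m (s (finProdFinEquiv.symm i).1 m); omega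
    · have := k3 m (u (finProdFinEquiv.symm i).2 m); omega
    · exact g5 _ m x
  · rintro (w | w)
    · exact h6 w
    · exact g6 w
  · rintro (w | w)
    · exact h7 w
    · exact g7 w

theorem inst : ∀ n, Inst (Fin n) (best n)
  | 0 => inst0
  | 1 => inst1
  | 2 => inst2
  | 3 => inst3
  | 4 => inst4
  | 5 => inst5
  | 6 => inst6
  | n + 7 => by
    have h := inst4.add (inst (n + 3))
    rwa [show 4 + (n + 3) = n + 7 by omega] at h

theorem rank {n : ℕ} {f : Fin n → ℕ} (h : Injective f) :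
    ∃ p : Equiv.Perm (Fin n), ∀ a b, p a < p b ↔ f a < f b := by
  refine ⟨(Tuple.sort f).symm, fun a b => ?_⟩
  have h1 := ((Tuple.monotone_sort f).strictMono_of_injective
    (h.comp (Tuple.sort f).injective)).lt_iff_lt (a := (Tuple.sort f).symm a)
      (b := (Tuple.sort f).symm b)
  simpa only [comp_apply, Equiv.apply_symm_apply] using h1.symm

theorem short {n : ℕ} {f : Fin n → ℕ} (h : Injective f) {T : Set (Fin n)}
    (hT : ∀ x ∈ T, f x ≤ 2) : T.ncard ≤ 3 :=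
  (Set.ncard_le_ncard_of_injOn f (t := Set.Iic 2) hT h.injOn (Set.finite_Iic 2)).trans_eq
    (Set.ncard_Iic_nat 2)

theorem lower (n : ℕ) : ∃ pm pw : Fin n → Equiv.Perm (Fin n), ThreePartners pm pw ∧
    best n ≤ Nat.card {M : Equiv.Perm (Fin n) // IsStable pm pw M} := by
  obtain ⟨rm, rw, s, A, B, h1, h2, h3, h4, h5, h6, h7⟩ := inst n
  choose pm hm using fun m => rank (h1 m)
  choose pw hw using fun w => rank (h2 w)
  refine ⟨pm, pw, ⟨fun m => short (h1 m) ?_, fun w => short (h2 w) ?_⟩, ?_⟩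
  · rintro w ⟨M, hM, rfl⟩
    by_contra hc
    have := (hw _ _ _).1 (OC.st_lt hM ((hm m (B m) (M m)).2 (by have := (h7 m).2; omega)))
    have := (h7 m).1
    omega
  · rintro m ⟨M, hM, rfl⟩
    by_contra hc
    have := (hm _ _ _).1 (OC.st_lt (OC.st_symm hM) (m := M m) (w := A (M m))
      ((hw _ _ _).2 (by rw [Equiv.symm_apply_apply]; have := (h6 (M m)).2; omega)))
    have := (h6 (M m)).1
    omega
  · let F : Fin (best n) → Equiv.Perm (Fin n) := fun i =>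
      Equiv.ofBijective (s i) (Finite.injective_iff_bijective.1 (h4 i))
    have hF : ∀ i, IsStable pm pw (F i) := by
      rintro i ⟨m, w, -, a, b⟩
      obtain ⟨x, rfl⟩ := (F i).surjective w
      rw [Equiv.symm_apply_apply] at b
      exact h5 i m x ⟨(hm _ _ _).1 a, (hw _ _ _).1 b⟩
    have := Nat.card_le_card_of_injective
      (fun i => (⟨F i, hF i⟩ : {M : Equiv.Perm (Fin n) // IsStable pm pw M})) fun i j h =>
        h3 (funext fun x => congrArg (fun M : {M // IsStable pm pw M} => M.1 x) h)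
    rwa [Nat.card_eq_fintype_card, Fintype.card_fin] at this

theorem exact_max (n : ℕ) : IsGreatest {c : ℕ | ∃ pm pw : Fin n → Equiv.Perm (Fin n),
    ThreePartners pm pw ∧ c = Nat.card {M : Equiv.Perm (Fin n) // IsStable pm pw M}} (best n) := by
  obtain ⟨pm, pw, h1, h2⟩ := lower n
  refine ⟨⟨pm, pw, h1, le_antisymm h2 (upper h1)⟩, ?_⟩
  rintro c ⟨pm, pw, h, rfl⟩
  exact upper h

end Pool.Agent.MP_081e4c_co.T3
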