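import Mathlib.Data.Nat.Fib.Basic
import Mathlib.Algebra.BigOperators.Ring.Finset
import Mathlib.Algebra.Order.BigOperators.Group.Finset
import Mathlib.Data.Finset.Powerset
import Mathlib.Tactic.Linarith
import Mathlib.Tactic.Ring
import Mathlib.Tactic.IntervalCases
import Pool.Agent.MP_081e4c_co.T3.Defs

/-! Independent sets in bipartite graphs of maximal degree two. -/

open Finset

namespace Pool.Agent.MP_081e4c_co.T3

/-! ### the numbers -/

theorem best_add (n : ℕ) (h : 3 ≤ n) : best (n + 4) = 7 * best n := by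
  obtain ⟨k, rfl⟩ := Nat.exists_eq_add_of_le' h
  rfl

theorem best_mul : ∀ s a b : ℕ, a + b = s → best a * best b ≤ best (a + b) := by
  intro s
  induction s using Nat.strong_induction_on with
  | _ s ih =>
    intro a b hs
    by_cases ha : 7 ≤ a
    · obtain ⟨k, rfl⟩ := Nat.exists_eq_add_of_le' ha
      have h1 := ih (k + 3 + b) (by omega) (k + 3) b rfl
      have h2 : best (k + 7 + b) = 7 * best (k + 3 + b) := by
        rw [← best_add _ (by omega)]; congr 1; omega
      have h3 : best (k + 7) = 7 * best (k + 3) := rfl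
      rw [h2, h3, mul_assoc]
      exact Nat.mul_le_mul_left _ h1
    · by_cases hb : 7 ≤ b
      · obtain ⟨k, rfl⟩ := Nat.exists_eq_add_of_le' hb
        have h1 := ih (a + (k + 3)) (by omega) a (k + 3) rfl
        have h2 : best (a + (k + 7)) = 7 * best (a + (k + 3)) := by
          rw [← best_add _ (by omega)]; congr 1
        have h3 : best (k + 7) = 7 * best (k + 3) := rfl
        rw [h2, h3, mul_left_comm]
        exact Nat.mul_le_mul_left _ h1
      · have ha' : a ≤ 6 := by omega
        have hb' : b ≤ 6 := by omega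
        interval_cases a <;> interval_cases b <;> decide

theorem fib_four (k : ℕ) : Nat.fib (k + 4) = 3 * Nat.fib (k + 1) + 2 * Nat.fib k := by
  simp only [Nat.fib_add_two, show k + 4 = k + 2 + 2 from rfl, show k + 2 + 1 = k + 1 + 2 from rfl]
  ring

theorem fib_seven (k : ℕ) : Nat.fib (k + 8) ≤ 7 * Nat.fib (k + 4) := by
  have h1 := fib_four (k + 4)
  have h2 : Nat.fib (k + 4 + 1) = Nat.fib (k + 3) + Nat.fib (k + 4) := Nat.fib_add_two
  have h3 : Nat.fib (k + 4) = Nat.fib (k + 2) + Nat.fib (k + 3) := Nat.fib_add_two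
  have h4 : Nat.fib (k + 3) = Nat.fib (k + 1) + Nat.fib (k + 2) := Nat.fib_add_two
  have h5 : Nat.fib (k + 1) ≤ Nat.fib (k + 2) := Nat.fib_le_fib_succ
  have h6 : Nat.fib (k + 8) = Nat.fib (k + 4 + 4) := rfl
  omega

theorem path_le : ∀ j : ℕ, Nat.fib (j + 3) ≤ best (j + 2) := by
  intro j
  induction j using Nat.strong_induction_on with
  | _ j ih =>
    by_cases h : 5 ≤ j
    · obtain ⟨k, rfl⟩ := Nat.exists_eq_add_of_le' h
      have h1 := ih (k + 1) (by omega)
      have h2 : best (k + 5 + 2) = 7 * best (k + 1 + 2) := rfl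
      have h3 := fib_seven k
      have h4 : Nat.fib (k + 5 + 3) = Nat.fib (k + 8) := rfl
      have h5 : Nat.fib (k + 1 + 3) = Nat.fib (k + 4) := rfl
      omega
    · have h' : j ≤ 4 := by omega
      interval_cases j <;> decide

theorem cycle_le : ∀ j : ℕ, Even j → j ≠ 0 → Nat.fib (j + 3) + Nat.fib (j + 1) ≤ best (j + 2) := by
  intro j
  induction j using Nat.strong_induction_on with
  | _ j ih =>
    intro he h0
    by_cases h : 6 ≤ j
    · obtain ⟨k, rfl⟩ := Nat.exists_eq_add_of_le' h
      have h1 := ih (k + 2) (by omega) (by rw [Nat.even_iff] at he ⊢; omega) (by omega)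
      have h2 : best (k + 6 + 2) = 7 * best (k + 2 + 2) := rfl
      have h3 := fib_four (k + 5)
      have h4 := fib_four (k + 3)
      have h5 : Nat.fib (k + 5 + 1) = Nat.fib (k + 4) + Nat.fib (k + 5) := Nat.fib_add_two
      have h6 : Nat.fib (k + 5) = Nat.fib (k + 3) + Nat.fib (k + 4) := Nat.fib_add_two
      have h7 : Nat.fib (k + 4) = Nat.fib (k + 2) + Nat.fib (k + 3) := Nat.fib_add_two
      have h8 : Nat.fib (k + 3) = Nat.fib (k + 1) + Nat.fib (k + 2) := Nat.fib_add_two
      have h9 : Nat.fib (k + 2) = Nat.fib k + Nat.fib (k + 1) := Nat.fib_add_two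
      have h10 : Nat.fib k ≤ Nat.fib (k + 1) := Nat.fib_le_fib_succ
      have e1 : Nat.fib (k + 6 + 3) = Nat.fib (k + 5 + 4) := rfl
      have e2 : Nat.fib (k + 6 + 1) = Nat.fib (k + 3 + 4) := rfl
      have e3 : Nat.fib (k + 2 + 3) = Nat.fib (k + 5) := rfl
      have e4 : Nat.fib (k + 2 + 1) = Nat.fib (k + 3) := rfl
      have e5 : Nat.fib (k + 3 + 1) = Nat.fib (k + 4) := rfl
      omega
    · have h' : j ≤ 5 := by omega
      interval_cases j <;> first | decide | exact absurd he (by decide) | exact absurd rfl h0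

/-! ### graphs -/

noncomputable section

open Classical

variable {α : Type*} (adj : α → α → Prop)

def Fr (A : Finset α) : Prop := ∀ a ∈ A, ∀ b ∈ A, ¬ adj a b

/-- the number of independent subsets of `V` -/
def ind (V : Finset α) : ℕ := (V.powerset.filter (Fr adj)).card

def nb (V : Finset α) (v : α) : Finset α := V.filter (adj v)

def dsum (V : Finset α) : ℕ := ∑ v ∈ V, (nb adj V v).card

variable {adj} {c : α → Prop}

theorem mem_nb {V : Finset α} {v x : α} : x ∈ nb adj V v ↔ x ∈ V ∧ adj v x := mem_filter

theorem nb_erase (V : Finset α) (v x : α) : nb adj (V.erase x) v = (nb adj V v).erase x := by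
  ext y
  simp only [mem_nb, mem_erase]
  tauto

theorem nb_mono {R V : Finset α} (h : R ⊆ V) (v : α) : (nb adj R v).card ≤ (nb adj V v).card :=
  card_le_card (filter_subset_filter _ h)

theorem ind_rec (hs : ∀ a b, adj a b → adj b a) (hi : ∀ a, ¬ adj a a) {V : Finset α} {v : α}
    (hv : v ∈ V) : ind adj V = ind adj (V.erase v) + ind adj (V.erase v \ nb adj V v) := by
  unfold ind
  rw [← card_filter_add_card_filter_not (s := V.powerset.filter _) (fun A => v ∉ A)]
  congr 1
  · congr 1
    ext A
    simp only [mem_filter, mem_powerset, subset_erase]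
    tauto
  · refine card_bij (fun A _ => A.erase v) ?_ ?_ ?_
    · intro A hA
      simp only [mem_filter, mem_powerset, not_not] at hA ⊢
      refine ⟨fun x hx => ?_, fun a ha b hb => hA.1.2 a (mem_of_mem_erase ha) b (mem_of_mem_erase hb)⟩
      rw [mem_erase] at hx
      exact mem_sdiff.2 ⟨mem_erase.2 ⟨hx.1, hA.1.1 hx.2⟩,
        fun h => hA.1.2 v hA.2 x hx.2 (mem_nb.1 h).2⟩
    · intro A hA B hB e
      simp only [mem_filter, not_not] at hA hB
      rw [← insert_erase hA.2, ← insert_erase hB.2, e]
    · intro B hB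
      simp only [mem_filter, mem_powerset] at hB
      have h1 : ∀ x ∈ B, x ≠ v ∧ x ∈ V ∧ ¬ adj v x := fun x hx => by
        have h := mem_sdiff.1 (hB.1 hx)
        have h2 := mem_erase.1 h.1
        exact ⟨h2.1, h2.2, fun h3 => h.2 (mem_nb.2 ⟨h2.2, h3⟩)⟩
      refine ⟨insert v B, ?_, erase_insert fun h => (h1 v h).1 rfl⟩
      simp only [mem_filter, mem_powerset, not_not]
      refine ⟨⟨insert_subset hv fun x hx => (h1 x hx).2.1, fun a ha b hb => ?_⟩,
        mem_insert_self _ _⟩
      rcases mem_insert.1 ha with rfl | ha' <;> rcases mem_insert.1 hb with rfl | hb'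
      · exact hi _
      · exact (h1 b hb').2.2
      · exact fun h => (h1 a ha').2.2 (hs _ _ h)
      · exact hB.2 a ha' b hb'

theorem dsum_erase (hs : ∀ a b, adj a b → adj b a) (hi : ∀ a, ¬ adj a a) {V : Finset α} {v : α}
    (hv : v ∈ V) : dsum adj V = dsum adj (V.erase v) + 2 * (nb adj V v).card := by
  have h1 : ∀ u ∈ V.erase v, (nb adj V u).card =
      (nb adj (V.erase v) u).card + if adj v u then 1 else 0 := by
    intro u _
    rw [nb_erase]
    split_ifs with h
    · exact (card_erase_add_one (mem_nb.2 ⟨hv, hs _ _ h⟩)).symm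
    · rw [erase_eq_of_notMem fun h' => h (hs _ _ (mem_nb.1 h').2), add_zero]
  have h2 : ∑ u ∈ V.erase v, (if adj v u then 1 else 0) = (nb adj V v).card := by
    rw [← card_filter]
    congr 1
    change nb adj (V.erase v) v = _
    rw [nb_erase, erase_eq_of_notMem fun h => hi v (mem_nb.1 h).2]
  unfold dsum
  rw [← add_sum_erase _ _ hv, sum_congr rfl h1, sum_add_distrib, h2]
  ring

/-- the path that starts at a vertex of degree at most one -/
theorem path (hs : ∀ a b, adj a b → adj b a) (hc : ∀ a b, adj a b → (c a ↔ ¬ c b)) :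
    ∀ (N : ℕ) (V : Finset α), V.card = N → (∀ u ∈ V, (nb adj V u).card ≤ 2) → ∀ v ∈ V,
      (nb adj V v).card ≤ 1 → ∃ (j : ℕ) (z : α) (R : Finset α), R ⊆ V.erase v ∧
        4 * V.card + dsum adj R = 4 * R.card + dsum adj V + 2 * (j + 2) ∧ z ∈ V ∧
        (nb adj V z).card ≤ 1 ∧ ((c z ↔ c v) ↔ Even j) ∧
        (j = 0 → z = v ∧ (nb adj V v).card = 0) ∧ (j ≠ 0 → z ≠ v) ∧
        ind adj V = Nat.fib (j + 3) * ind adj R ∧
        ind adj (V.erase v) = Nat.fib (j + 2) * ind adj R ∧
        ind adj (V.erase z) = Nat.fib (j + 2) * ind adj R ∧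
        ind adj ((V.erase v).erase z) = Nat.fib (j + 1) * ind adj R := by
  have hi : ∀ a, ¬ adj a a := fun a h => by have := hc a a h; tauto
  intro N
  induction N with
  | zero =>
    intro V hV _ v hv
    rw [card_eq_zero.1 hV] at hv
    exact absurd hv (notMem_empty _)
  | succ N ih =>
    intro V hV hd v hv h1
    have hcard := card_erase_add_one hv
    have hds := dsum_erase hs hi hv
    have hrec := ind_rec hs hi hv
    rcases Nat.le_one_iff_eq_zero_or_eq_one.1 h1 with h0 | h0
    · have he := card_eq_zero.1 h0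
      rw [he, sdiff_empty] at hrec
      refine ⟨0, v, V.erase v, Subset.rfl, by omega, hv, h1, by simp, fun _ => ⟨rfl, h0⟩,
        fun h => absurd rfl h, ?_, ?_, ?_, ?_⟩
      · rw [hrec, ← two_mul]; rfl
      · exact (one_mul _).symm
      · exact (one_mul _).symm
      · rw [erase_idem]; exact (one_mul _).symm
    · obtain ⟨u, hu⟩ := card_eq_one.1 h0
      have hu' := mem_nb.1 (hu ▸ mem_singleton_self u : u ∈ nb adj V v)
      have huv : u ≠ v := fun e => hi v (e ▸ hu'.2)
      have huV : u ∈ V.erase v := mem_erase.2 ⟨huv, hu'.1⟩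
      have hvu : v ∈ nb adj V u := mem_nb.2 ⟨hv, hs _ _ hu'.2⟩
      have hdu : (nb adj (V.erase v) u).card + 1 = (nb adj V u).card := by
        rw [nb_erase]; exact card_erase_add_one hvu
      obtain ⟨j, z, R, r1, r2, r3, r4, r5, r6, r7, r8, r9, r10, r11⟩ :=
        ih (V.erase v) (by omega)
          (fun x hx => (nb_mono (erase_subset _ _) x).trans (hd x (mem_of_mem_erase hx))) u huV
          (by have := hd u hu'.1; omega)
      have hzv := (mem_erase.1 r3).1
      rw [hu, sdiff_singleton_eq_erase] at hrec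
      refine ⟨j + 1, z, R, r1.trans (erase_subset _ _), by omega, mem_of_mem_erase r3, ?_, ?_,
        fun h => absurd h (Nat.succ_ne_zero j), fun _ => hzv, ?_, r8, ?_, r10⟩
      · by_cases hj : j = 0
        · obtain ⟨rfl, h2⟩ := r6 hj
          omega
        · have h2 : v ∉ nb adj V z := fun h => r7 hj (mem_singleton.1
            (hu ▸ mem_nb.2 ⟨mem_of_mem_erase r3, hs _ _ (mem_nb.1 h).2⟩ : z ∈ ({u} : Finset α)))
          rwa [nb_erase, erase_eq_of_notMem h2] at r4
      · have := hc v u hu'.2
        rw [Nat.even_add_one]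
        tauto
      · rw [hrec, r8, r9, ← add_mul, add_comm]
        congr 1
        exact Nat.fib_add_two.symm
      · have h2 := ind_rec hs hi (mem_erase.2 ⟨hzv.symm, hv⟩ : v ∈ V.erase z)
        have h3 : (V.erase z).erase v \ nb adj (V.erase z) v = ((V.erase v).erase u).erase z := by
          rw [nb_erase, hu]
          ext x
          simp only [mem_sdiff, mem_erase, mem_singleton]
          tauto
        rw [h2, h3, erase_right_comm, r10, r11, ← add_mul, add_comm]
        congr 1
        exact Nat.fib_add_two.symm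

theorem ind_le (hs : ∀ a b, adj a b → adj b a) (hc : ∀ a b, adj a b → (c a ↔ ¬ c b)) :
    ∀ (N : ℕ) (V : Finset α), V.card = N → (∀ u ∈ V, (nb adj V u).card ≤ 2) →
      ∀ W : ℕ, 4 * V.card ≤ 2 * W + dsum adj V → ind adj V ≤ best W := by
  have hi : ∀ a, ¬ adj a a := fun a h => by have := hc a a h; tauto
  intro N
  induction N using Nat.strong_induction_on with
  | _ N ih =>
    intro V hV hd W hW
    have fin : ∀ (j t : ℕ) (R : Finset α), R ⊆ V → R.card < V.card → t ≤ best (j + 2) →
        4 * V.card + dsum adj R = 4 * R.card + dsum adj V + 2 * (j + 2) →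
        ind adj V = t * ind adj R → ind adj V ≤ best W := by
      intro j t R h1 h2 h3 h4 h5
      have h6 : ∀ u ∈ R, (nb adj R u).card ≤ 2 := fun u hu => (nb_mono h1 u).trans (hd u (h1 hu))
      have h7 : dsum adj R ≤ R.card * 2 := sum_le_card_nsmul _ _ _ h6
      obtain ⟨W', rfl⟩ : ∃ W', W = j + 2 + W' := ⟨W - (j + 2), by omega⟩
      rw [h5]
      exact (Nat.mul_le_mul h3 (ih _ (hV ▸ h2) R rfl h6 W' (by omega))).trans
        (best_mul _ _ _ rfl)
    by_cases h1 : ∃ v ∈ V, (nb adj V v).card ≤ 1
    · obtain ⟨v, hv, h1⟩ := h1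
      obtain ⟨j, z, R, r1, r2, -, -, -, -, -, r8, -⟩ := path hs hc _ V rfl hd v hv h1
      exact fin j _ R (r1.trans (erase_subset _ _))
        ((card_le_card r1).trans_lt (card_erase_lt_of_mem hv)) (path_le j) r2 r8
    · push Not at h1
      rcases V.eq_empty_or_nonempty with rfl | ⟨v, hv⟩
      · have h2 : ind adj (∅ : Finset α) ≤ 1 := (card_filter_le _ _).trans (by simp)
        have h3 := best_mul _ 0 W rfl
        have h4 : 1 ≤ best W := by
          clear hW h3 fin
          induction W using Nat.strong_induction_on with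
          | _ W ihW =>
            by_cases h : 7 ≤ W
            · obtain ⟨k, rfl⟩ := Nat.exists_eq_add_of_le' h
              have h5 := ihW (k + 3) (by omega)
              have h6 : best (k + 7) = 7 * best (k + 3) := rfl
              omega
            · have h' : W ≤ 6 := by omega
              interval_cases W <;> decide
        omega
      · have h2 : (nb adj V v).card = 2 := le_antisymm (hd v hv) (h1 v hv)
        obtain ⟨u, u', huu, hu⟩ := card_eq_two.1 h2
        have hu1 := mem_nb.1 (hu ▸ mem_insert_self u _ : u ∈ nb adj V v)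
        have hu2 := mem_nb.1 (hu ▸ mem_insert_of_mem (mem_singleton_self u') : u' ∈ nb adj V v)
        have huV : u ∈ V.erase v := mem_erase.2 ⟨fun e => hi v (e ▸ hu1.2), hu1.1⟩
        have hdu : (nb adj (V.erase v) u).card + 1 = (nb adj V u).card := by
          rw [nb_erase]; exact card_erase_add_one (mem_nb.2 ⟨hv, hs _ _ hu1.2⟩)
        have h3 := hd u hu1.1
        have h4 := h1 u hu1.1
        obtain ⟨j, z, R, r1, r2, r3, r4, r5, r6, r7, r8, -, -, r11⟩ := path hs hc _ (V.erase v) rfl
          (fun x hx => (nb_mono (erase_subset _ _) x).trans (hd x (mem_of_mem_erase hx))) u huV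
          (by omega)
        have hj : j ≠ 0 := fun h => by have := (r6 h).2; omega
        have hz : z = u' := by
          have h5 := h1 z (mem_of_mem_erase r3)
          have h6 : v ∈ nb adj V z := by
            by_contra h
            rw [nb_erase, erase_eq_of_notMem h] at r4
            omega
          have h7 : z ∈ ({u, u'} : Finset α) :=
            hu ▸ mem_nb.2 ⟨mem_of_mem_erase r3, hs _ _ (mem_nb.1 h6).2⟩
          rcases mem_insert.1 h7 with h | h
          · exact absurd h (r7 hj)
          · exact mem_singleton.1 h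
        subst hz
        have he : Even j := r5.1 (by
          have a1 := hc v u hu1.2
          have a2 := hc v z hu2.2
          tauto)
        have hcard := card_erase_add_one hv
        have hds := dsum_erase hs hi hv
        have hrec := ind_rec hs hi hv
        have h8 : V.erase v \ nb adj V v = ((V.erase v).erase u).erase z := by
          rw [hu]
          ext x
          simp only [mem_sdiff, mem_erase, mem_insert, mem_singleton]
          tauto
        have h9 : R ⊆ V.erase v := r1.trans (erase_subset _ _)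
        refine fin j _ R (h9.trans (erase_subset _ _))
          ((card_le_card h9).trans_lt (card_erase_lt_of_mem hv)) (cycle_le j he hj) (by omega) ?_
        rw [hrec, h8, r8, r11, add_mul]

end

end Pool.Agent.MP_081e4c_co.T3
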