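import Pool.Agent.MP_081e4c_co.T3.Gr

/-! Reduction of weighted directed multigraphs to bipartite graphs of maximal degree two. -/

open Finset

namespace Pool.Agent.MP_081e4c_co.T3

noncomputable section

open Classical

variable {α β : Type*} (tl hd : β → α)

def inc (E : Finset β) (v : α) : Finset β := E.filter fun e => tl e = v ∨ hd e = v

def ad (E : Finset β) (u v : α) : Prop := ∃ e ∈ E, (tl e = u ∧ hd e = v) ∨ (tl e = v ∧ hd e = u)

structure Good (V : Finset α) (E : Finset β) (k : α → ℕ) : Prop where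
  ends : ∀ e ∈ E, tl e ∈ V ∧ hd e ∈ V ∧ tl e ≠ hd e
  two : ∀ v ∈ V, 2 ≤ k v
  deg : ∀ v ∈ V, (inc tl hd E v).card ≤ k v
  mix : ∀ e ∈ E, ∀ f ∈ E, hd e = tl f → (inc tl hd E (hd e)).card < k (hd e)
  par : ∀ e ∈ E, ∀ f ∈ E, e ≠ f → tl e = tl f → hd e = hd f → 3 ≤ k (tl e) ∨ 3 ≤ k (hd e)

variable {tl hd} {V : Finset α} {E : Finset β} {k : α → ℕ}

theorem mem_inc {v : α} {e : β} : e ∈ inc tl hd E v ↔ e ∈ E ∧ (tl e = v ∨ hd e = v) := mem_filter

theorem inc_mono {E' : Finset β} (h : E' ⊆ E) (v : α) :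
    (inc tl hd E' v).card ≤ (inc tl hd E v).card := card_le_card (filter_subset_filter _ h)

theorem ind_mono {E' : Finset β} (h : E' ⊆ E) : ind (ad tl hd E) V ≤ ind (ad tl hd E') V := by
  refine card_le_card fun A hA => ?_
  rw [mem_filter] at hA ⊢
  exact ⟨hA.1, fun a ha b hb ⟨e, he, h'⟩ => hA.2 a ha b hb ⟨e, h he, h'⟩⟩

theorem base (H : Good tl hd V E k) (h2 : ∀ v ∈ V, k v = 2) (W : ℕ)
    (hW : ∑ v ∈ V, k v ≤ W + E.card) : ind (ad tl hd E) V ≤ best W := by
  have nomix : ∀ e ∈ E, ∀ f ∈ E, hd e ≠ tl f := by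
    intro e he f hf h
    have h1 := H.mix e he f hf h
    rw [h2 _ (H.ends e he).2.1] at h1
    have h3 : 1 < (inc tl hd E (hd e)).card := one_lt_card.2 ⟨e, mem_inc.2 ⟨he, Or.inr rfl⟩, f,
      mem_inc.2 ⟨hf, Or.inl h.symm⟩, fun e' => (H.ends e he).2.2 (by rw [h, e'])⟩
    omega
  have nopar : ∀ e ∈ E, ∀ f ∈ E, tl e = tl f → hd e = hd f → e = f := by
    intro e he f hf h1 h3
    by_contra hne
    have h4 := H.par e he f hf hne h1 h3
    rw [h2 _ (H.ends e he).1, h2 _ (H.ends e he).2.1] at h4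
    omega
  have hnb : ∀ u, (nb (ad tl hd E) V u).card = (inc tl hd E u).card := by
    intro u
    symm
    refine card_bij (fun e _ => if tl e = u then hd e else tl e) ?_ ?_ ?_
    · intro e he
      obtain ⟨h1, h3⟩ := mem_inc.1 he
      split_ifs with h
      · exact mem_nb.2 ⟨(H.ends e h1).2.1, e, h1, Or.inl ⟨h, rfl⟩⟩
      · exact mem_nb.2 ⟨(H.ends e h1).1, e, h1, Or.inr ⟨rfl, h3.resolve_left h⟩⟩
    · intro e he f hf h
      obtain ⟨h1, h3⟩ := mem_inc.1 he
      obtain ⟨h4, h5⟩ := mem_inc.1 hf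
      split_ifs at h with a b b
      · exact nopar e h1 f h4 (a.trans b.symm) h
      · exact absurd h (nomix e h1 f h4)
      · exact absurd h.symm (nomix f h4 e h1)
      · exact nopar e h1 f h4 h ((h3.resolve_left a).trans (h5.resolve_left b).symm)
    · intro x hx
      obtain ⟨-, e, he, h | h⟩ := mem_nb.1 hx
      · exact ⟨e, mem_inc.2 ⟨he, Or.inl h.1⟩, by rw [if_pos h.1, h.2]⟩
      · exact ⟨e, mem_inc.2 ⟨he, Or.inr h.2⟩, by
          rw [if_neg fun a => (H.ends e he).2.2 (a.trans h.2.symm), h.1]⟩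
  have hsum : dsum (ad tl hd E) V = E.card * 2 := by
    unfold dsum
    simp only [hnb, inc, card_filter]
    rw [sum_comm]
    refine sum_const_nat fun e he => ?_
    rw [← card_filter, ← card_pair (H.ends e he).2.2]
    congr 1
    ext x
    simp only [mem_filter, mem_insert, mem_singleton]
    refine ⟨fun h => h.2.imp Eq.symm Eq.symm, fun h => ?_⟩
    rcases h with rfl | rfl
    · exact ⟨(H.ends e he).1, Or.inl rfl⟩
    · exact ⟨(H.ends e he).2.1, Or.inr rfl⟩
  refine ind_le (c := fun u => ∃ e ∈ E, tl e = u) (fun a b ⟨e, he, h⟩ => ⟨e, he, h.symm⟩) ?_ _ V rfl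
    (fun u hu => by rw [hnb, ← h2 u hu]; exact H.deg u hu) W ?_
  · rintro a b ⟨e, he, h | h⟩
    · exact ⟨fun _ ⟨f, hf, h'⟩ => nomix e he f hf (h.2.trans h'.symm), fun _ => ⟨e, he, h.1⟩⟩
    · exact ⟨fun ⟨f, hf, h'⟩ => absurd (h.2.trans h'.symm) (nomix e he f hf),
        fun h' => absurd ⟨e, he, h.1⟩ h'⟩
  · rw [sum_const_nat h2] at hW
    omega

theorem step (H : Good tl hd V E k) {v : α} (hv : v ∈ V) (h3 : 3 ≤ k v) :
    ∃ E' ⊆ E, E.card ≤ E'.card + 1 ∧ Good tl hd V E' (Function.update k v (k v - 1)) := by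
  have key : ∀ E' ⊆ E, (inc tl hd E' v = ∅ ∨ (inc tl hd E' v).card < (inc tl hd E v).card) →
      (∀ e ∈ E', ∀ f ∈ E', e ≠ f → tl e = tl f → hd e = hd f → k v = 3 →
        (tl e = v ∧ k (hd e) = 2) ∨ (hd e = v ∧ k (tl e) = 2) → False) →
      Good tl hd V E' (Function.update k v (k v - 1)) := by
    intro E' h1 h2 h4
    have hd' := H.deg v hv
    refine ⟨fun e he => H.ends e (h1 he), fun u hu => ?_, fun u hu => ?_, fun e he f hf h => ?_,
      fun e he f hf a b c => ?_⟩
    · by_cases h : u = v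
      · rw [h, Function.update_self]; omega
      · rw [Function.update_of_ne h]; exact H.two u hu
    · by_cases h : u = v
      · rw [h, Function.update_self]
        rcases h2 with h2 | h2
        · rw [h2]; exact Nat.zero_le _
        · omega
      · rw [Function.update_of_ne h]; exact (inc_mono h1 u).trans (H.deg u hu)
    · have h5 := H.mix e (h1 he) f (h1 hf) h
      by_cases h' : hd e = v
      · rw [h'] at h5
        rw [h', Function.update_self]
        rcases h2 with h2 | h2
        · rw [h2, card_empty]; omega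
        · omega
      · rw [Function.update_of_ne h']; exact (inc_mono h1 _).trans_lt h5
    · have h5 := H.par e (h1 he) f (h1 hf) a b c
      have h6 := h4 e he f hf a b c
      obtain ⟨e1, e2, e3⟩ := H.ends e (h1 he)
      have e4 := H.two _ e1
      have e5 := H.two _ e2
      by_cases p : tl e = v
      · have q : hd e ≠ v := fun q => e3 (p.trans q.symm)
        rw [Function.update_of_ne q, p, Function.update_self]
        by_contra hc
        exact h6 (by omega) (Or.inl ⟨p, by omega⟩)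
      · by_cases q : hd e = v
        · rw [Function.update_of_ne p, q, Function.update_self]
          by_contra hc
          exact h6 (by omega) (Or.inr ⟨q, by omega⟩)
        · rwa [Function.update_of_ne p, Function.update_of_ne q]
  have er : ∀ e ∈ inc tl hd E v, E.card ≤ (E.erase e).card + 1 ∧
      (inc tl hd (E.erase e) v).card < (inc tl hd E v).card := by
    intro e he
    refine ⟨(card_erase_add_one (mem_inc.1 he).1).ge,
      card_lt_card ⟨filter_subset_filter _ (erase_subset _ _), fun h => ?_⟩⟩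
    exact notMem_erase e E (mem_inc.1 (h he)).1
  by_cases hp : ∃ e ∈ E, ∃ f ∈ E, e ≠ f ∧ tl e = tl f ∧ hd e = hd f ∧ k v = 3 ∧
      ((tl e = v ∧ k (hd e) = 2) ∨ (hd e = v ∧ k (tl e) = 2))
  · obtain ⟨e, he, f, hf, a1, a2, a3, a4, a5⟩ := hp
    have he' : e ∈ inc tl hd E v := mem_inc.2 ⟨he, a5.imp And.left And.left⟩
    refine ⟨E.erase e, erase_subset _ _, (er e he').1, key _ (erase_subset _ _)
      (Or.inr (er e he').2) fun x hx y hy b1 b2 b3 _ b5 => ?_⟩
    obtain ⟨x1, x2⟩ := mem_erase.1 hx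
    obtain ⟨y1, y2⟩ := mem_erase.1 hy
    have three : ∀ u ∈ V, k u = 2 → (tl e = u ∨ hd e = u) → (tl x = u ∨ hd x = u) → False := by
      intro u hu c1 c2 c3
      have c4 : 2 < (inc tl hd E u).card := two_lt_card_iff.2 ⟨e, x, y, mem_inc.2 ⟨he, c2⟩,
        mem_inc.2 ⟨x2, c3⟩, mem_inc.2 ⟨y2, by rwa [← b2, ← b3]⟩, x1.symm, y1.symm, b1⟩
      have := H.deg u hu
      omega
    have same : tl x = tl e ∧ hd x = hd e := by
      by_cases c1 : x = f
      · rw [c1]; exact ⟨a2.symm, a3.symm⟩
      · by_cases c2 : y = f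
        · rw [b2, b3, c2]; exact ⟨a2.symm, a3.symm⟩
        · exfalso
          have c3 : ({e, f, x, y} : Finset β) ⊆ inc tl hd E v := by
            have c4 : tl x = v ∨ hd x = v := b5.imp And.left And.left
            intro z hz
            simp only [mem_insert, mem_singleton] at hz
            rcases hz with rfl | rfl | rfl | rfl
            · exact he'
            · exact mem_inc.2 ⟨hf, by rw [← a2, ← a3]; exact a5.imp And.left And.left⟩
            · exact mem_inc.2 ⟨x2, c4⟩
            · exact mem_inc.2 ⟨y2, by rwa [← b2, ← b3]⟩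
          have c5 := card_le_card c3
          rw [card_insert_of_notMem (by simp [a1, x1.symm, y1.symm]),
            card_insert_of_notMem (by simp [Ne.symm c1, Ne.symm c2]), card_pair b1] at c5
          have := H.deg v hv
          omega
    rcases a5 with a5 | a5
    · exact three _ (H.ends e he).2.1 a5.2 (Or.inr rfl) (Or.inr same.2)
    · exact three _ (H.ends e he).1 a5.2 (Or.inl rfl) (Or.inl same.1)
  · rcases (inc tl hd E v).eq_empty_or_nonempty with h | ⟨e, he⟩
    · exact ⟨E, Subset.rfl, Nat.le_succ _, key E Subset.rfl (Or.inl h)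
        fun x hx y hy b1 b2 b3 b4 b5 => hp ⟨x, hx, y, hy, b1, b2, b3, b4, b5⟩⟩
    · exact ⟨E.erase e, erase_subset _ _, (er e he).1, key _ (erase_subset _ _)
        (Or.inr (er e he).2) fun x hx y hy b1 b2 b3 b4 b5 =>
          hp ⟨x, mem_of_mem_erase hx, y, mem_of_mem_erase hy, b1, b2, b3, b4, b5⟩⟩

theorem reduce : ∀ (S : ℕ) (E : Finset β) (k : α → ℕ), Good tl hd V E k → ∑ v ∈ V, k v = S →
    ∀ W : ℕ, S ≤ W + E.card → ind (ad tl hd E) V ≤ best W := by
  intro S
  induction S using Nat.strong_induction_on with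
  | _ S ih =>
    intro E k H hS W hW
    by_cases h : ∀ v ∈ V, k v = 2
    · exact base H h W (hS ▸ hW)
    · push Not at h
      obtain ⟨v, hv, h⟩ := h
      have h3 : 3 ≤ k v := by have := H.two v hv; omega
      obtain ⟨E', h1, h2, H'⟩ := step H hv h3
      have h4 := sum_update_of_mem hv k (k v - 1)
      have h5 := add_sum_erase V k hv
      rw [sdiff_singleton_eq_erase] at h4
      exact (ind_mono h1).trans (ih _ (by omega) E' _ H' rfl W (by omega))

end

end Pool.Agent.MP_081e4c_co.T3
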